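import Pool.Agent.helper61.DP.SpecC
import Pool.Agent.helper61.DP.Base

/-!
# Project dp, module RQD: crossings of the shifted square
-/

namespace DP

theorem RQD_even {b : V → Bool} {z : V} (h1 : z.1 % 2 = 0) (h2 : z.2 % 2 = 0) :
    col b z = true := by
  unfold col
  rw [if_pos ⟨h1, h2⟩]

theorem RQD_odd {b : V → Bool} {z : V} (h1 : z.1 % 2 = 1) (h2 : z.2 % 2 = 1) :
    col b z = false := by
  unfold col
  rw [if_neg (by omega), if_pos ⟨h1, h2⟩]

/-- moving the row `-1` to the row `0` -/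
def RQD_f (z : V) : V := (z.1, max z.2 0)

theorem RQD_row {b : V → Bool} {z : V} {n : ℕ} (hz : z ∈ rect (-1) (2 * n - 1) (-1) (2 * n - 1))
    (hb : col b z = true) : (0 ≤ z.2 ∧ RQD_f z = z) ∨
      (z.2 = -1 ∧ z.1 % 2 = 0 ∧ RQD_f z = (z.1, 0)) := by
  obtain ⟨_, _, h3, _⟩ := hz
  rcases le_or_gt 0 z.2 with h | h
  · left
    refine ⟨h, ?_⟩
    unfold RQD_f
    rw [max_eq_left h]
  · right
    have h4 : z.2 = -1 := by omega
    refine ⟨h4, ?_, ?_⟩
    · by_contra h5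
      rw [RQD_odd (by omega) (by omega)] at hb
      exact Bool.noConfusion hb
    · unfold RQD_f
      rw [max_eq_right h.le]

theorem RQD_mem {b : V → Bool} {z : V} {n : ℕ} (hz : z ∈ rect (-1) (2 * n - 1) (-1) (2 * n - 1))
    (hb : col b z = true) :
    RQD_f z ∈ {w : V | w ∈ rect (-1) (2 * n - 1) 0 (2 * n) ∧ col b w = true} := by
  obtain ⟨h1, h2, h3, h4⟩ := hz
  rcases RQD_row ⟨h1, h2, h3, h4⟩ hb with ⟨h, he⟩ | ⟨h, h0, he⟩
  · rw [he]
    exact ⟨⟨h1, h2, h, by omega⟩, hb⟩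
  · rw [he]
    exact ⟨⟨h1, h2, le_rfl, by simp only; omega⟩, RQD_even h0 rfl⟩

theorem RQD_adj {b : V → Bool} {z w : V} {n : ℕ}
    (hz : z ∈ rect (-1) (2 * n - 1) (-1) (2 * n - 1)) (hb : col b z = true)
    (hw : w ∈ rect (-1) (2 * n - 1) (-1) (2 * n - 1)) (hb' : col b w = true) (h : Adj z w) :
    RQD_f z = RQD_f w ∨ Adj (RQD_f z) (RQD_f w) := by
  rw [adj_iff] at h
  rcases RQD_row hz hb with ⟨h1, he⟩ | ⟨h1, h0, he⟩ <;>
    rcases RQD_row hw hb' with ⟨h1', he'⟩ | ⟨h1', h0', he'⟩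
  · right
    rw [he, he', adj_iff]
    exact h
  · left
    rw [he, he']
    ext
    · simp only
      omega
    · simp only
      omega
  · left
    rw [he, he']
    ext
    · simp only
      omega
    · simp only
      omega
  · exfalso
    omega

theorem RQD : RQD_stmt := by
  intro b n h
  obtain ⟨u, v, hu, hv, h⟩ := h
  rcases Nat.eq_zero_or_pos n with rfl | hn
  · exact ⟨(0, 0), (0, 0), rfl, by simp, Con.refl ⟨⟨le_rfl, by simp, le_rfl, by simp⟩,
      RQD_even rfl rfl⟩⟩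
  have key : Con {w : V | w ∈ rect (-1) (2 * n - 1) 0 (2 * n) ∧ col b w = true}
      (RQD_f u) (RQD_f v) := by
    refine Con.induct' h (fun z => Con {w : V | w ∈ rect (-1) (2 * n - 1) 0 (2 * n) ∧
      col b w = true} (RQD_f u) (RQD_f z)) (Con.refl (RQD_mem h.1.1 h.1.2)) ?_
    intro x y hx hy hxy hP
    rcases RQD_adj hx.1 hx.2 hy.1 hy.2 hxy with h1 | h1
    · rw [← h1]
      exact hP
    · exact hP.step h1 (RQD_mem hy.1 hy.2)
  have hu1 : (RQD_f u).1 = -1 := hu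
  have hv1 : (RQD_f v).1 = 2 * n - 1 := hv
  obtain ⟨x, y, hx, hxZ, hxy, hcon, -⟩ := key.last_exit {z : V | z.1 = -1} hu1
    (by show ¬ (RQD_f v).1 = -1; omega)
  have hxZ' : x.1 = -1 := hxZ
  have hyW := hcon.mem_left
  have hy0 : y.1 = 0 := by
    have h1 : ¬ y.1 = -1 := hyW.2
    have h2 : -1 ≤ y.1 := hyW.1.1.1
    rw [adj_iff] at hxy
    omega
  have hvW := key.mem_right
  obtain ⟨⟨h1, h2, h3, h4⟩, h5⟩ := hvW
  have hve : (RQD_f v).2 % 2 = 0 := by
    by_contra h6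
    rw [RQD_odd (by omega) (by omega)] at h5
    exact Bool.noConfusion h5
  refine ⟨y, (2 * n, (RQD_f v).2), hy0, rfl, ?_⟩
  refine Con.step (v := RQD_f v) (Con.mono ?_ hcon) ?_ ?_
  · rintro z ⟨⟨⟨hz1, hz2, hz3, hz4⟩, hz5⟩, hz6⟩
    have hz7 : ¬ z.1 = -1 := hz6
    exact ⟨⟨by omega, by omega, hz3, hz4⟩, hz5⟩
  · rw [adj_iff]
    refine ⟨⟨?_, ?_, ?_, ?_⟩, ?_, Or.inr (Or.inl rfl)⟩
    · simp only
      omega
    · simp only
      omega
    · simp
    · simp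
    · rintro ⟨h6, -⟩
      simp only at h6
      omega
  · refine ⟨⟨by simp only; omega, by simp only; omega, h3, h4⟩, RQD_even ?_ hve⟩
    simp only
    omega

end DP
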