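import Pool.Agent.helper3.DP.SpecG1
import Pool.Agent.helper96.DP.Basic

/-!
# Project dp, module GFM: monotonicity of arm events in the radii
-/

namespace DP

theorem GFM_ann {x : V} {m m' n' n : ℕ} (h1 : m ≤ m') (h2 : n' ≤ n) : ann x m' n' ⊆ ann x m n :=
  fun _ h => ⟨h1.trans h.1, h.2.trans h2⟩

theorem GFM_armA {c : V → Bool} {k : Bool} {γ : Set V} {x : V} {m m' n' n : ℕ} (h1 : m ≤ m')
    (h2 : m' ≤ n') (h3 : n' ≤ n) (h : armA c k γ x m n) : armA c k γ x m' n' := by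
  obtain ⟨u, hu, v, hv, h⟩ := h
  have hu' : sd x u = m := hu
  have hv' : sd x v = n := hv
  obtain ⟨p, q, hp, hq, hpq, -, -⟩ := Con.cross (x := x) (m := m') (n := n') h (by omega) h2
    (by omega)
  refine ⟨p, hp, q, hq, Con.mono ?_ hpq⟩
  rintro w ⟨⟨⟨-, hw1⟩, hw2⟩, hw3⟩
  exact ⟨⟨hw3, hw1⟩, hw2⟩

theorem GFM_arm_iff {c : V → Bool} {k : Bool} {x : V} {m n : ℕ} :
    arm c k x m n ↔ armA c k ∅ x m n := by
  unfold arm armA
  rw [Set.sdiff_empty]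

theorem GFM_four {c : V → Bool} {x : V} {m m' n' n : ℕ} (h1 : m ≤ m')
    (h2 : m' ≤ n') (h3 : n' ≤ n) (h : four c x m n) : four c x m' n' := by
  obtain ⟨u, hu, v, hv, ⟨u', hu', hc1⟩, ⟨v', hv', hc2⟩, hn⟩ := h
  have e1 : sd x u = m := hu
  have e2 : sd x v = m := hv
  have e3 : sd x u' = n := hu'
  have e4 : sd x v' = n := hv'
  obtain ⟨p, q, hp, hq, hpq, hup, -⟩ := Con.cross (x := x) (m := m') (n := n') hc1 (by omega) h2
    (by omega)
  obtain ⟨p', q', hp', hq', hpq', hup', -⟩ := Con.cross (x := x) (m := m') (n := n') hc2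
    (by omega) h2 (by omega)
  have hW : ({w | w ∈ ann x m n ∧ c w = true} ∩ ann x m' n' : Set V) ⊆
      {w | w ∈ ann x m' n' ∧ c w = true} := by
    rintro w ⟨⟨-, hw2⟩, hw3⟩
    exact ⟨hw3, hw2⟩
  refine ⟨p, hp, p', hp', ⟨q, hq, Con.mono hW hpq⟩, ⟨q', hq', Con.mono hW hpq'⟩, fun hcon => hn ?_⟩
  exact (hup.trans (Conn.mono (GFM_ann h1 h3) hcon)).trans hup'.symm

theorem GFM : GFM_stmt := by
  intro c x m m' n' n h1 h2 h3
  refine ⟨fun k h => ?_, fun h => GFM_four h1 h2 h3 h, fun k γ h => GFM_armA h1 h2 h3 h⟩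
  rw [GFM_arm_iff] at h ⊢
  exact GFM_armA h1 h2 h3 h

end DP
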