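import Pool.Agent.helper96.DP.SpecE
import Pool.Agent.helper96.DP.Basic

/-!
# Project dp, module SUB: submultiplicativity of the arm probabilities
-/

namespace DP

theorem SUB_sub {x : V} {k : Bool} {c : V → Bool} {m m' n' n : ℕ} :
    ({w | w ∈ ann x m n ∧ c w = k} ∩ ann x m' n' : Set V) ⊆ {w | w ∈ ann x m' n' ∧ c w = k} := by
  rintro w ⟨⟨-, hw2⟩, hw3⟩
  exact ⟨hw3, hw2⟩

theorem SUB_arm {c : V → Bool} {k : Bool} {x : V} {m m' n' n : ℕ} (h1 : m ≤ m')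
    (h2 : m' ≤ n') (h3 : n' ≤ n) (h : arm c k x m n) : arm c k x m' n' := by
  obtain ⟨u, hu, v, hv, h⟩ := h
  have hu' : sd x u = m := hu
  have hv' : sd x v = n := hv
  obtain ⟨p, q, hp, hq, hpq, -, -⟩ := Con.cross (x := x) (m := m') (n := n') h (by omega) h2
    (by omega)
  exact ⟨p, hp, q, hq, Con.mono SUB_sub hpq⟩

theorem SUB_four {c : V → Bool} {x : V} {m m' n' n : ℕ} (h1 : m ≤ m')
    (h2 : m' ≤ n') (h3 : n' ≤ n) (h : four c x m n) : four c x m' n' := by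
  obtain ⟨u, hu, v, hv, ⟨u', hu', hc1⟩, ⟨v', hv', hc2⟩, hn⟩ := h
  have e1 : sd x u = m := hu
  have e2 : sd x v = m := hv
  have e3 : sd x u' = n := hu'
  have e4 : sd x v' = n := hv'
  obtain ⟨p, q, hp, hq, hpq, hup, -⟩ := Con.cross (x := x) (m := m') (n := n') hc1 (by omega) h2
    (by omega)
  obtain ⟨p', q', hp', hq', hpq', hup', -⟩ := Con.cross (x := x) (m := m') (n := n') hc2
    (by omega) h2 (by omega)
  refine ⟨p, hp, p', hp', ⟨q, hq, Con.mono SUB_sub hpq⟩, ⟨q', hq', Con.mono SUB_sub hpq'⟩,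
    fun hcon => hn ?_⟩
  have hR : ann x m' n' ⊆ ann x m n := fun _ h => ⟨h1.trans h.1, h.2.trans h3⟩
  exact (hup.trans (Conn.mono hR hcon)).trans hup'.symm

theorem SUB_ar {c : V → Bool} {j : ℕ} {x : V} {m m' n' n : ℕ} (h1 : m ≤ m')
    (h2 : m' ≤ n') (h3 : n' ≤ n) (h : ar j c x m n) : ar j c x m' n' := by
  unfold ar at h ⊢
  split_ifs at h ⊢
  · exact SUB_four h1 h2 h3 h
  · exact ⟨SUB_arm h1 h2 h3 h.1, SUB_arm h1 h2 h3 h.2⟩

theorem SUB_loc (j : ℕ) (x : V) (m n : ℕ) : Loc (Ev fun c => ar j c x m n) (ann x m n) := by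
  refine Loc.ev (ann_finite x m n) fun c c' h => ?_
  unfold ar
  split_ifs
  · simp only [four, twoCl, Conn.congr h]
  · simp only [two, arm, Conn.congr h]

theorem SUB_AM : AM_stmt := fun _ _ _ _ _ _ _ _ h1 h2 h3 h => SUB_ar h1 h2 h3 h

theorem SUB (hM : Bmono_stmt) (hI : Bindep_stmt) : SUB_stmt := by
  intro j ρ x m n n' r _ h1 h2 h3
  have hd : Disjoint (ann x m n) (ann x n' r) := by
    rw [Set.disjoint_left]
    rintro v hv hv'
    have e1 : sd x v ≤ n := hv.2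
    have e2 : n' ≤ sd x v := hv'.1
    omega
  rw [← hI ρ _ _ _ _ _ _ hd (SUB_loc j x m n) (SUB_loc j x m n) (SUB_loc j x n' r)
    (SUB_loc j x n' r)]
  have hs : (Ev fun c => ar j c x m r) ⊆ (Ev fun c => ar j c x m n) ∩ Ev fun c => ar j c x n' r :=
    fun b hb => ⟨SUB_ar le_rfl h1 (by omega) hb, SUB_ar (by omega) h3 le_rfl hb⟩
  exact hM ρ _ _ _ _ hs hs

end DP
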